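import Mathlib

/-!
# A criterion for a group to be dihedral of order eight
-/

set_option autoImplicit false

namespace Pool.Agent.R371.QD

/-- A group generated by `ρ` of order four and an involution `h` inverting it is dihedral. -/
theorem dihedral_of {G : Type*} [Group G] (ρ h : G) (h4 : ρ ^ 4 = 1) (hh : h * h = 1)
    (hr : h * ρ * h = ρ⁻¹) (hsurj : ∀ g, ∃ i : ℕ, g = ρ ^ i ∨ g = h * ρ ^ i)
    (h1 : ∀ i : ℕ, i < 4 → ρ ^ i = 1 → i = 0) (hne : ∀ i : ℕ, h * ρ ^ i ≠ 1) :
    Nonempty (G ≃* DihedralGroup 4) := by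
  have hmod : ∀ n : ℕ, ρ ^ n = ρ ^ (n % 4) := fun n => pow_eq_pow_mod n h4
  have hinv : ρ⁻¹ = ρ ^ 3 := by
    rw [inv_eq_iff_mul_eq_one, ← pow_succ']
    exact h4
  have hcomm : ∀ n : ℕ, ρ ^ n * h = h * ρ ^ (3 * n) := by
    intro n
    have e1 : h * ρ ^ n * h = (ρ ^ 3) ^ n := by
      have : h⁻¹ = h := by
        rw [inv_eq_iff_mul_eq_one]; exact hh
      have e2 : (h * ρ * h⁻¹) ^ n = h * ρ ^ n * h⁻¹ := conj_pow
      rw [this, hr, hinv] at e2
      exact e2.symm
    rw [pow_mul, ← e1, ← mul_assoc, ← mul_assoc, hh, one_mul]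
  have hval : ∀ i j : ZMod 4, (j - i).val = (3 * i.val + j.val) % 4 := by decide
  let f : DihedralGroup 4 → G := fun u => match u with
    | DihedralGroup.r i => ρ ^ i.val
    | DihedralGroup.sr i => h * ρ ^ i.val
  have hmul : ∀ u v, f (u * v) = f u * f v := by
    intro u v
    match u, v with
    | DihedralGroup.r i, DihedralGroup.r j =>
      rw [DihedralGroup.r_mul_r]
      change ρ ^ (i + j).val = ρ ^ i.val * ρ ^ j.val
      rw [ZMod.val_add, ← hmod, pow_add]
    | DihedralGroup.r i, DihedralGroup.sr j =>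
      rw [DihedralGroup.r_mul_sr]
      change h * ρ ^ (j - i).val = ρ ^ i.val * (h * ρ ^ j.val)
      rw [← mul_assoc, hcomm, mul_assoc, ← pow_add]
      rw [hmod (3 * i.val + j.val), hval]
    | DihedralGroup.sr i, DihedralGroup.r j =>
      rw [DihedralGroup.sr_mul_r]
      change h * ρ ^ (i + j).val = h * ρ ^ i.val * ρ ^ j.val
      rw [ZMod.val_add, ← hmod, pow_add, mul_assoc]
    | DihedralGroup.sr i, DihedralGroup.sr j =>
      rw [DihedralGroup.sr_mul_sr]
      change ρ ^ (j - i).val = h * ρ ^ i.val * (h * ρ ^ j.val)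
      have : h * ρ ^ i.val * (h * ρ ^ j.val) = ρ ^ (3 * i.val + j.val) := by
        rw [mul_assoc h, ← mul_assoc (ρ ^ i.val), hcomm, mul_assoc, ← mul_assoc, hh, one_mul,
          ← pow_add]
      rw [this, hmod (3 * i.val + j.val), hval]
  let F : DihedralGroup 4 →* G := MonoidHom.mk' f hmul
  have hbij : Function.Bijective F := by
    constructor
    · rw [injective_iff_map_eq_one]
      intro u hu
      match u with
      | DihedralGroup.r i =>
        have : ρ ^ i.val = 1 := hu
        have h0 := h1 i.val (ZMod.val_lt i) this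
        have : i = 0 := (ZMod.val_eq_zero i).1 h0
        rw [this]; rfl
      | DihedralGroup.sr i => exact absurd hu (hne i.val)
    · intro g
      obtain ⟨i, hi | hi⟩ := hsurj g
      · refine ⟨DihedralGroup.r (i : ZMod 4), ?_⟩
        change ρ ^ ((i : ZMod 4)).val = g
        rw [ZMod.val_natCast, ← hmod, hi]
      · refine ⟨DihedralGroup.sr (i : ZMod 4), ?_⟩
        change h * ρ ^ ((i : ZMod 4)).val = g
        rw [ZMod.val_natCast, ← hmod, hi]
  exact ⟨(MulEquiv.ofBijective F hbij).symm⟩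

end Pool.Agent.R371.QD
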