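import Mathlib
import Pool.Agent.R371.QD.Dih

/-!
# Dihedral octic extensions of `ℚ` generated by `√(x + y √c)`
-/

set_option autoImplicit false

namespace Pool.Agent.R371.QD

open Polynomial IntermediateField

/-- the algebraic closure of the rationals -/
abbrev Om : Type := AlgebraicClosure ℚ

/-- `M` contains every dihedral octic Galois extension of `ℚ` inside `Om`. -/
def ContainsD4 (M : IntermediateField ℚ Om) : Prop :=
  ∀ L : IntermediateField ℚ Om, IsGalois ℚ L → Nonempty ((L ≃ₐ[ℚ] L) ≃* DihedralGroup 4) → L ≤ M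

/-- An element whose square is a rational non-square is negated by some automorphism. -/
theorem exists_neg {L : IntermediateField ℚ Om} [IsGalois ℚ L] {u : L} {r : ℚ}
    (hu : u ^ 2 = algebraMap ℚ L r) (hr : ¬ IsSquare r) : ∃ g : L ≃ₐ[ℚ] L, g u = -u := by
  by_contra hcon
  push Not at hcon
  apply hr
  have hfix : ∀ g : L ≃ₐ[ℚ] L, g u = u := by
    intro g
    have h1 : (g u) ^ 2 = u ^ 2 := by
      rw [← map_pow, hu, AlgEquiv.commutes]
    rcases sq_eq_sq_iff_eq_or_eq_neg.1 h1 with h | h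
    · exact h
    · exact absurd h (hcon g)
  have := (InfiniteGalois.mem_range_algebraMap_iff_fixed u).2 hfix
  obtain ⟨s, hs⟩ := this
  refine ⟨s, ?_⟩
  have h2 : algebraMap ℚ L r = algebraMap ℚ L (s * s) := by
    rw [← hu, ← hs, map_mul, sq]
  exact (algebraMap ℚ L).injective h2

theorem mem_of_dihedral {M : IntermediateField ℚ Om} (hM : ContainsD4 M) {c x y : ℚ} {δ θ : Om}
    (hδ : δ ^ 2 = algebraMap ℚ Om c) (hθ : θ ^ 2 = algebraMap ℚ Om x + algebraMap ℚ Om y * δ)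
    (hc : ¬ IsSquare c) (hd : ¬ IsSquare (x ^ 2 - c * y ^ 2))
    (hcd : ¬ IsSquare (c * (x ^ 2 - c * y ^ 2))) : θ ∈ M := by
  have hy : y ≠ 0 := by
    rintro rfl
    apply hd
    exact ⟨x, by ring⟩
  have hy' : algebraMap ℚ Om y ≠ 0 := by
    rw [Ne, map_eq_zero]; exact hy
  obtain ⟨θ', hθ'⟩ := IsAlgClosed.exists_pow_nat_eq
    (algebraMap ℚ Om x - algebraMap ℚ Om y * δ) (n := 2) (by norm_num)
  set d : ℚ := x ^ 2 - c * y ^ 2 with hddef
  have hd0 : d ≠ 0 := by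
    intro h; apply hd; rw [h]; exact ⟨0, by ring⟩
  have hprod : (θ * θ') ^ 2 = algebraMap ℚ Om d := by
    rw [mul_pow, hθ, hθ', hddef]
    simp only [map_sub, map_mul, map_pow]
    linear_combination (-(algebraMap ℚ Om y) ^ 2) * hδ
  -- the polynomial
  let p : ℚ[X] := X ^ 4 - C (2 * x) * X ^ 2 + C d
  have hroot : ∀ {R : Type} [Field R] [Algebra ℚ R] (z : R), aeval z p = 0 ↔
      z ^ 4 - algebraMap ℚ R (2 * x) * z ^ 2 + algebraMap ℚ R d = 0 := by
    intro R _ _ z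
    simp only [p, map_add, map_sub, map_mul, map_pow, aeval_X, aeval_C]
  have hfac : ∀ z : Om, z ^ 4 - algebraMap ℚ Om (2 * x) * z ^ 2 + algebraMap ℚ Om d =
      (z ^ 2 - θ ^ 2) * (z ^ 2 - θ' ^ 2) := by
    intro z
    have h1 : θ ^ 2 + θ' ^ 2 = algebraMap ℚ Om (2 * x) := by
      rw [hθ, hθ', map_mul, map_ofNat]; ring
    have h2 : θ ^ 2 * θ' ^ 2 = algebraMap ℚ Om d := by rw [← mul_pow, hprod]
    rw [← h1, ← h2]; ring
  have hmonic : p.Monic := by
    have : p = X ^ 4 + (- C (2 * x) * X ^ 2 + C d) := by simp only [p]; ring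
    rw [this]
    apply monic_X_pow_add
    refine lt_of_le_of_lt (degree_add_le _ _) ?_
    apply max_lt
    · refine lt_of_le_of_lt (degree_mul_le _ _) ?_
      have h1 : (-C (2 * x) : ℚ[X]).degree ≤ 0 := by
        rw [degree_neg]; exact degree_C_le
      have h2 : (X ^ 2 : ℚ[X]).degree ≤ 2 := degree_X_pow_le 2
      calc (-C (2 * x) : ℚ[X]).degree + (X ^ 2 : ℚ[X]).degree ≤ 0 + 2 := add_le_add h1 h2
        _ < _ := by norm_num
    · exact lt_of_le_of_lt degree_C_le (by norm_num)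
  have hp0 : p ≠ 0 := hmonic.ne_zero
  have hmemroot : ∀ z : Om, z ∈ p.rootSet Om ↔ (z = θ ∨ z = -θ) ∨ (z = θ' ∨ z = -θ') := by
    intro z
    rw [mem_rootSet, hroot, hfac, mul_eq_zero, sub_eq_zero, sub_eq_zero,
      sq_eq_sq_iff_eq_or_eq_neg, sq_eq_sq_iff_eq_or_eq_neg]
    exact and_iff_right hp0
  let L : IntermediateField ℚ Om := IntermediateField.adjoin ℚ (p.rootSet Om)
  have hsplit : IsSplittingField ℚ L p :=
    IntermediateField.adjoin_rootSet_isSplittingField (IsAlgClosed.splits _)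
  have hnormal : Normal ℚ L := Normal.of_isSplittingField p
  have hgal : IsGalois ℚ L := ⟨⟩
  have hθL : θ ∈ L := IntermediateField.subset_adjoin _ _ ((hmemroot θ).2 (Or.inl (Or.inl rfl)))
  have hθL' : θ' ∈ L := IntermediateField.subset_adjoin _ _ ((hmemroot θ').2 (Or.inr (Or.inl rfl)))
  have hδL : δ ∈ L := by
    have h1 : δ = (θ ^ 2 - algebraMap ℚ Om x) / algebraMap ℚ Om y := by
      rw [hθ]; field_simp; ring
    rw [h1]
    exact div_mem (sub_mem (pow_mem hθL 2) (L.algebraMap_mem x)) (L.algebraMap_mem y)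
  suffices hD : Nonempty ((L ≃ₐ[ℚ] L) ≃* DihedralGroup 4) from hM L hgal hD hθL
  -- elements of `L`
  let t₀ : L := ⟨θ, hθL⟩
  let t₁ : L := ⟨θ', hθL'⟩
  let dl : L := ⟨δ, hδL⟩
  have ht₀ : t₀ ^ 2 = algebraMap ℚ L x + algebraMap ℚ L y * dl := by
    apply Subtype.ext; exact hθ
  have ht₁ : t₁ ^ 2 = algebraMap ℚ L x - algebraMap ℚ L y * dl := by
    apply Subtype.ext; exact hθ'
  have hdl : dl ^ 2 = algebraMap ℚ L c := by
    apply Subtype.ext; exact hδ
  have hel : (t₀ * t₁) ^ 2 = algebraMap ℚ L d := by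
    apply Subtype.ext; exact hprod
  have hyL : algebraMap ℚ L y ≠ 0 := by
    rw [Ne, map_eq_zero]; exact hy
  have ht00 : t₀ ≠ 0 := by
    intro h
    rw [h, zero_mul, zero_pow (by norm_num)] at hel
    exact hd0 ((map_eq_zero _).1 hel.symm)
  have ht10 : t₁ ≠ 0 := by
    intro h
    rw [h, mul_zero, zero_pow (by norm_num)] at hel
    exact hd0 ((map_eq_zero _).1 hel.symm)
  have hdl0 : dl ≠ 0 := by
    intro h
    rw [h, zero_pow (by norm_num)] at hdl
    apply hc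
    rw [(map_eq_zero _).1 hdl.symm]
    exact ⟨0, by ring⟩
  have h2L : (2 : L) ≠ 0 := two_ne_zero
  have hnegne : ∀ u : L, u ≠ 0 → u ≠ -u := by
    intro u hu h
    have : 2 * u = 0 := by linear_combination h
    rcases mul_eq_zero.1 this with h | h
    · exact h2L h
    · exact hu h
  -- extensionality
  have hext : ∀ g g' : L ≃ₐ[ℚ] L, g t₀ = g' t₀ → g t₁ = g' t₁ → g = g' := by
    intro g g' e0 e1
    have : (g : L →ₐ[ℚ] L) = (g' : L →ₐ[ℚ] L) := by
      refine IntermediateField.algHom_ext_of_eq_adjoin ℚ (S := L) (s := p.rootSet Om) rfl ?_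
      intro z hz
      rcases (hmemroot z).1 hz with (h | h) | (h | h)
      · subst h; exact e0
      · subst h
        have : (⟨-θ, IntermediateField.subset_adjoin _ _ hz⟩ : L) = -t₀ := rfl
        change g _ = g' _
        rw [this, map_neg, map_neg, e0]
      · subst h; exact e1
      · subst h
        have : (⟨-θ', IntermediateField.subset_adjoin _ _ hz⟩ : L) = -t₁ := rfl
        change g _ = g' _
        rw [this, map_neg, map_neg, e1]
    ext z
    exact congrArg Subtype.val (DFunLike.congr_fun this z)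
  -- the action of an automorphism
  have hgdl : ∀ g : L ≃ₐ[ℚ] L, g dl = dl ∨ g dl = -dl := by
    intro g
    apply sq_eq_sq_iff_eq_or_eq_neg.1
    rw [← map_pow, hdl, AlgEquiv.commutes]
  have hgel : ∀ g : L ≃ₐ[ℚ] L, g (t₀ * t₁) = t₀ * t₁ ∨ g (t₀ * t₁) = -(t₀ * t₁) := by
    intro g
    apply sq_eq_sq_iff_eq_or_eq_neg.1
    rw [← map_pow, hel, AlgEquiv.commutes]
  have hg0 : ∀ g : L ≃ₐ[ℚ] L, g t₀ ^ 2 = algebraMap ℚ L x + algebraMap ℚ L y * g dl := by
    intro g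
    rw [← map_pow, ht₀, map_add, map_mul, AlgEquiv.commutes, AlgEquiv.commutes]
  -- two special automorphisms
  obtain ⟨g1, hg1⟩ := exists_neg hdl hc
  obtain ⟨g2, hg2⟩ := exists_neg hel hd
  obtain ⟨g3, hg3⟩ := exists_neg (u := dl * (t₀ * t₁)) (r := c * d)
    (by rw [mul_pow, hdl, hel, map_mul]) hcd
  have hA : ∃ ρ : L ≃ₐ[ℚ] L, ρ dl = -dl ∧ ρ (t₀ * t₁) = -(t₀ * t₁) := by
    rcases hgel g1 with h1 | h1
    · rcases hgdl g2 with h2 | h2
      · refine ⟨g1 * g2, ?_, ?_⟩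
        · rw [AlgEquiv.mul_apply, h2, hg1]
        · rw [AlgEquiv.mul_apply, hg2, map_neg, h1]
      · exact ⟨g2, h2, hg2⟩
    · exact ⟨g1, hg1, h1⟩
  have hB : ∃ h : L ≃ₐ[ℚ] L, h dl = dl ∧ h (t₀ * t₁) = -(t₀ * t₁) := by
    obtain ⟨ρ, hρ1, hρ2⟩ := hA
    rw [map_mul] at hg3
    rcases hgdl g3 with h1 | h1
    · rcases hgel g3 with h2 | h2
      · rw [h1, h2] at hg3
        exact absurd hg3 (hnegne _ (mul_ne_zero hdl0 (mul_ne_zero ht00 ht10)))
      · exact ⟨g3, h1, h2⟩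
    · rcases hgel g3 with h2 | h2
      · refine ⟨g3 * ρ, ?_, ?_⟩
        · rw [AlgEquiv.mul_apply, hρ1, map_neg, h1, neg_neg]
        · rw [AlgEquiv.mul_apply, hρ2, map_neg, h2]
      · rw [h1, h2] at hg3
        exact absurd (by linear_combination hg3 : dl * (t₀ * t₁) = -(dl * (t₀ * t₁)))
          (hnegne _ (mul_ne_zero hdl0 (mul_ne_zero ht00 ht10)))
  obtain ⟨ρ, hρ1, hρ2⟩ := hA
  obtain ⟨h, hh1, hh2⟩ := hB
  -- choose the second root as `ρ t₀`
  set t₂ : L := ρ t₀ with ht₂def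
  have ht₂sq : t₂ ^ 2 = algebraMap ℚ L x - algebraMap ℚ L y * dl := by
    rw [ht₂def, hg0, hρ1]; ring
  have ht₂ : t₂ = t₁ ∨ t₂ = -t₁ := by
    apply sq_eq_sq_iff_eq_or_eq_neg.1
    rw [ht₂sq, ht₁]
  have ht₂0 : t₂ ≠ 0 := by
    rcases ht₂ with e | e
    · rw [e]; exact ht10
    · rw [e]; exact neg_ne_zero.2 ht10
  have hprodρ : ρ (t₀ * t₂) = -(t₀ * t₂) := by
    rcases ht₂ with e | e
    · rw [e, hρ2]
    · rw [e, mul_neg, map_neg, hρ2]
  have hρt₂ : ρ t₂ = -t₀ := by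
    have e : t₂ * ρ t₂ = t₂ * (-t₀) := by
      have := hprodρ
      rw [map_mul, ← ht₂def] at this
      rw [this]; ring
    exact mul_left_cancel₀ ht₂0 e
  have hext' : ∀ g g' : L ≃ₐ[ℚ] L, g t₀ = g' t₀ → g t₂ = g' t₂ → g = g' := by
    intro g g' e0 e2
    apply hext g g' e0
    rcases ht₂ with e | e
    · rw [← e]; exact e2
    · have : t₁ = -t₂ := by rw [e, neg_neg]
      rw [this, map_neg, map_neg, e2]
  have hg2' : ∀ g : L ≃ₐ[ℚ] L, g t₂ ^ 2 = algebraMap ℚ L x - algebraMap ℚ L y * g dl := by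
    intro g
    rw [← map_pow, ht₂sq, map_sub, map_mul, AlgEquiv.commutes, AlgEquiv.commutes]
  have hρρ0 : ρ (ρ t₀) = -t₀ := hρt₂
  have hρρ2 : ρ (ρ t₂) = -t₂ := by rw [hρt₂, map_neg, ← ht₂def]
  have hB' : ∃ h : L ≃ₐ[ℚ] L, h t₀ = t₀ ∧ h t₂ = -t₂ := by
    have e0 : h t₀ = t₀ ∨ h t₀ = -t₀ := by
      apply sq_eq_sq_iff_eq_or_eq_neg.1
      rw [hg0, hh1, ht₀]
    have hprodh : h t₀ * h t₂ = -(t₀ * t₂) := by
      rw [← map_mul]
      rcases ht₂ with e | e
      · rw [e, hh2]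
      · rw [e, mul_neg, map_neg, hh2]
    rcases e0 with e | e
    · refine ⟨h, e, ?_⟩
      rw [e] at hprodh
      apply mul_left_cancel₀ ht00
      rw [hprodh]; ring
    · refine ⟨h * ρ * ρ, ?_, ?_⟩
      · rw [AlgEquiv.mul_apply, AlgEquiv.mul_apply, hρρ0, map_neg, e, neg_neg]
      · rw [AlgEquiv.mul_apply, AlgEquiv.mul_apply, hρρ2, map_neg]
        rw [e] at hprodh
        congr 1
        apply mul_left_cancel₀ ht00
        linear_combination -hprodh
  obtain ⟨k, hk0, hk2⟩ := hB'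
  have h02 : t₀ ≠ t₂ := by
    intro e
    have : t₀ ^ 2 = t₂ ^ 2 := by rw [e]
    rw [ht₀, ht₂sq] at this
    have h3 : 2 * (algebraMap ℚ L y * dl) = 0 := by linear_combination this
    rcases mul_eq_zero.1 h3 with h4 | h4
    · exact h2L h4
    · exact (mul_ne_zero hyL hdl0) h4
  have h02' : t₀ ≠ -t₂ := by
    intro e
    have : t₀ ^ 2 = t₂ ^ 2 := by rw [e]; ring
    rw [ht₀, ht₂sq] at this
    have h3 : 2 * (algebraMap ℚ L y * dl) = 0 := by linear_combination this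
    rcases mul_eq_zero.1 h3 with h4 | h4
    · exact h2L h4
    · exact (mul_ne_zero hyL hdl0) h4
  -- powers of `ρ`
  have p0 : (ρ ^ 0) t₀ = t₀ ∧ (ρ ^ 0) t₂ = t₂ := by simp
  have p1 : (ρ ^ 1) t₀ = t₂ ∧ (ρ ^ 1) t₂ = -t₀ := by
    rw [pow_one]; exact ⟨rfl, hρt₂⟩
  have p2 : (ρ ^ 2) t₀ = -t₀ ∧ (ρ ^ 2) t₂ = -t₂ := by
    rw [sq, AlgEquiv.mul_apply, AlgEquiv.mul_apply]; exact ⟨hρρ0, hρρ2⟩
  have p3 : (ρ ^ 3) t₀ = -t₂ ∧ (ρ ^ 3) t₂ = t₀ := by
    rw [pow_succ, AlgEquiv.mul_apply, AlgEquiv.mul_apply]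
    rw [hρt₂, ← ht₂def, p2.2, map_neg, p2.1, neg_neg]
    exact ⟨rfl, rfl⟩
  have p4 : ρ ^ 4 = 1 := by
    apply hext'
    · rw [pow_succ, AlgEquiv.mul_apply, ← ht₂def, p3.2]; rfl
    · rw [pow_succ, AlgEquiv.mul_apply, hρt₂, map_neg, p3.1, neg_neg]; rfl
  refine dihedral_of ρ k p4 ?_ ?_ ?_ ?_ ?_
  · apply hext'
    · rw [AlgEquiv.mul_apply, hk0, hk0]; rfl
    · rw [AlgEquiv.mul_apply, hk2, map_neg, hk2, neg_neg]; rfl
  · rw [eq_inv_iff_mul_eq_one]
    apply hext'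
    · rw [AlgEquiv.mul_apply, AlgEquiv.mul_apply, AlgEquiv.mul_apply, ← ht₂def, hk2, map_neg,
        hρt₂, neg_neg, hk0]; rfl
    · rw [AlgEquiv.mul_apply, AlgEquiv.mul_apply, AlgEquiv.mul_apply, hρt₂, map_neg, hk0, map_neg,
        ← ht₂def, map_neg, hk2, neg_neg]; rfl
  · intro g
    rcases hgdl g with hg | hg
    · have e0 : g t₀ = t₀ ∨ g t₀ = -t₀ := by
        apply sq_eq_sq_iff_eq_or_eq_neg.1
        rw [hg0, hg, ht₀]
      have e2 : g t₂ = t₂ ∨ g t₂ = -t₂ := by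
        apply sq_eq_sq_iff_eq_or_eq_neg.1
        rw [hg2', hg, ht₂sq]
      rcases e0 with e0 | e0 <;> rcases e2 with e2 | e2
      · refine ⟨0, Or.inl (hext' _ _ ?_ ?_)⟩
        · rw [p0.1, e0]
        · rw [p0.2, e2]
      · refine ⟨0, Or.inr (hext' _ _ ?_ ?_)⟩
        · rw [AlgEquiv.mul_apply, p0.1, e0, hk0]
        · rw [AlgEquiv.mul_apply, p0.2, e2, hk2]
      · refine ⟨2, Or.inr (hext' _ _ ?_ ?_)⟩
        · rw [AlgEquiv.mul_apply, p2.1, e0, map_neg, hk0]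
        · rw [AlgEquiv.mul_apply, p2.2, e2, map_neg, hk2, neg_neg]
      · refine ⟨2, Or.inl (hext' _ _ ?_ ?_)⟩
        · rw [p2.1, e0]
        · rw [p2.2, e2]
    · have e0 : g t₀ = t₂ ∨ g t₀ = -t₂ := by
        apply sq_eq_sq_iff_eq_or_eq_neg.1
        rw [hg0, hg, ht₂sq]; ring
      have e2 : g t₂ = t₀ ∨ g t₂ = -t₀ := by
        apply sq_eq_sq_iff_eq_or_eq_neg.1
        rw [hg2', hg, ht₀]; ring
      rcases e0 with e0 | e0 <;> rcases e2 with e2 | e2
      · refine ⟨3, Or.inr (hext' _ _ ?_ ?_)⟩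
        · rw [AlgEquiv.mul_apply, p3.1, e0, map_neg, hk2, neg_neg]
        · rw [AlgEquiv.mul_apply, p3.2, e2, hk0]
      · refine ⟨1, Or.inl (hext' _ _ ?_ ?_)⟩
        · rw [p1.1, e0]
        · rw [p1.2, e2]
      · refine ⟨3, Or.inl (hext' _ _ ?_ ?_)⟩
        · rw [p3.1, e0]
        · rw [p3.2, e2]
      · refine ⟨1, Or.inr (hext' _ _ ?_ ?_)⟩
        · rw [AlgEquiv.mul_apply, p1.1, e0, hk2]
        · rw [AlgEquiv.mul_apply, p1.2, e2, map_neg, hk0]
  · intro i hi h1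
    have e := DFunLike.congr_fun h1 t₀
    interval_cases i
    · rfl
    · rw [p1.1] at e
      exact absurd e.symm h02
    · rw [p2.1] at e
      exact absurd e.symm (hnegne _ ht00)
    · rw [p3.1] at e
      exact absurd e.symm h02'
  · intro i h1
    have e : k * ρ ^ (i % 4) = 1 := by rw [← pow_eq_pow_mod i p4]; exact h1
    have hi : i % 4 < 4 := Nat.mod_lt _ (by norm_num)
    have e0 := DFunLike.congr_fun e t₀
    have e2 := DFunLike.congr_fun e t₂
    rw [AlgEquiv.mul_apply, AlgEquiv.one_apply] at e0 e2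
    generalize i % 4 = j at *
    interval_cases j
    · rw [p0.2, hk2] at e2
      exact absurd e2.symm (hnegne _ ht₂0)
    · rw [p1.1, hk2] at e0
      exact absurd e0.symm h02'
    · rw [p2.1, map_neg, hk0] at e0
      exact absurd e0.symm (hnegne _ ht00)
    · rw [p3.1, map_neg, hk2, neg_neg] at e0
      exact absurd e0.symm h02

end Pool.Agent.R371.QD
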