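import Mathlib
import Pool.Agent.R371.QD.DExt

/-!
# The explicit radical formula
-/

set_option autoImplicit false

namespace Pool.Agent.R371.QD

open IntermediateField

theorem not_isSquare_of_neg {r : ℚ} (h : r < 0) : ¬ IsSquare r := by
  rintro ⟨s, hs⟩
  nlinarith [mul_self_nonneg s]

theorem not_isSquare_two : ¬ IsSquare (2 : ℚ) := by
  rintro ⟨s, hs⟩
  have h : Irrational (√2) := irrational_sqrt_two
  apply h
  refine ⟨|s|, ?_⟩
  have h2 : ((|s| : ℚ) : ℝ) ^ 2 = 2 := by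
    have : (|s| : ℚ) ^ 2 = 2 := by rw [sq_abs, sq, hs]
    exact_mod_cast this
  rw [eq_comm, Real.sqrt_eq_iff_mul_self_eq (by norm_num) (by positivity)]
  rw [← sq, h2]

variable {M : IntermediateField ℚ Om}

/-- Square roots of rational numbers. -/
theorem sqrt_mem_aux (hM : ContainsD4 M) {g : ℚ} {u : Om} (hu : u ^ 2 = algebraMap ℚ Om g)
    (h0 : g ≠ 0) (h1 : ¬ IsSquare g) (h2 : ¬ IsSquare (-g)) : u ∈ M := by
  obtain ⟨θ, hθ⟩ := IsAlgClosed.exists_pow_nat_eq u (n := 2) (by norm_num)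
  have h3 : θ ∈ M := by
    refine mem_of_dihedral hM (c := g) (x := 0) (y := 1) hu ?_ h1 ?_ ?_
    · rw [hθ, map_zero, map_one]; ring
    · have : (0 : ℚ) ^ 2 - g * 1 ^ 2 = -g := by ring
      rw [this]; exact h2
    · apply not_isSquare_of_neg
      have : g * ((0 : ℚ) ^ 2 - g * 1 ^ 2) = -(g * g) := by ring
      rw [this]
      have : 0 < g * g := mul_self_pos.2 h0
      linarith
  rw [← hθ]
  exact pow_mem h3 2

theorem sqrt_mem (hM : ContainsD4 M) {g : ℚ} {u : Om} (hu : u ^ 2 = algebraMap ℚ Om g) :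
    u ∈ M := by
  have hsq : ∀ v : Om, v ∈ M → u ^ 2 = v ^ 2 → u ∈ M := by
    intro v hv h
    rcases sq_eq_sq_iff_eq_or_eq_neg.1 h with h | h
    · rw [h]; exact hv
    · rw [h]; exact neg_mem hv
  by_cases h1 : IsSquare g
  · obtain ⟨s, hs⟩ := h1
    apply hsq _ (M.algebraMap_mem s)
    rw [hu, hs, map_mul, sq]
  · by_cases h2 : IsSquare (-g)
    · obtain ⟨s, hs⟩ := h2
      obtain ⟨v, hv⟩ := IsAlgClosed.exists_pow_nat_eq (algebraMap ℚ Om 2) (n := 2) (by norm_num)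
      obtain ⟨w, hw⟩ := IsAlgClosed.exists_pow_nat_eq (algebraMap ℚ Om (-2)) (n := 2) (by norm_num)
      have n2 : ¬ IsSquare (-2 : ℚ) := not_isSquare_of_neg (by norm_num)
      have hvM : v ∈ M := sqrt_mem_aux hM hv (by norm_num) not_isSquare_two n2
      have hwM : w ∈ M := sqrt_mem_aux hM hw (by norm_num) n2
        (by rw [neg_neg]; exact not_isSquare_two)
      apply hsq (algebraMap ℚ Om s * (w / v)) (mul_mem (M.algebraMap_mem s) (div_mem hwM hvM))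
      rw [mul_pow, div_pow, hv, hw, hu]
      have : g = -(s * s) := by linarith
      rw [this]
      simp only [map_neg, map_mul, map_ofNat]
      ring
    · refine sqrt_mem_aux hM hu ?_ h1 h2
      rintro rfl
      exact h1 ⟨0, by ring⟩

/-- The degenerate case: the norm of `x + y √c` is a square. -/
theorem mem_of_norm_square (hM : ContainsD4 M) {c x y e : ℚ} {δ θ : Om}
    (hδ : δ ^ 2 = algebraMap ℚ Om c) (hθ : θ ^ 2 = algebraMap ℚ Om x + algebraMap ℚ Om y * δ)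
    (he : x ^ 2 - c * y ^ 2 = e * e) : θ ∈ M := by
  obtain ⟨θ', hθ'⟩ := IsAlgClosed.exists_pow_nat_eq
    (algebraMap ℚ Om x - algebraMap ℚ Om y * δ) (n := 2) (by norm_num)
  have hprod : (θ * θ') ^ 2 = (algebraMap ℚ Om e) ^ 2 := by
    rw [mul_pow, hθ, hθ']
    have h1 : (algebraMap ℚ Om e) ^ 2 = algebraMap ℚ Om (x ^ 2 - c * y ^ 2) := by
      rw [he, map_mul, sq]
    rw [h1]
    simp only [map_sub, map_mul, map_pow]
    linear_combination (-(algebraMap ℚ Om y) ^ 2) * hδ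
  have key : ∃ f : ℚ, θ * θ' = algebraMap ℚ Om f := by
    rcases sq_eq_sq_iff_eq_or_eq_neg.1 hprod with h | h
    · exact ⟨e, h⟩
    · exact ⟨-e, by rw [h, map_neg]⟩
  obtain ⟨f, hf⟩ := key
  have hA : θ + θ' ∈ M := by
    apply sqrt_mem hM (g := 2 * x + 2 * f)
    simp only [map_add, map_mul, map_ofNat]
    linear_combination hθ + hθ' + 2 * hf
  have hB : θ - θ' ∈ M := by
    apply sqrt_mem hM (g := 2 * x - 2 * f)
    simp only [map_sub, map_mul, map_ofNat]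
    linear_combination hθ + hθ' - 2 * hf
  have : θ = algebraMap ℚ Om (1 / 2) * ((θ + θ') + (θ - θ')) := by
    simp only [map_div₀, map_one, map_ofNat]
    ring
  rw [this]
  exact mul_mem (M.algebraMap_mem _) (add_mem hA hB)

theorem mem_of_neg (hM : ContainsD4 M) {c x y : ℚ} {δ θ : Om} (hc : c < 0)
    (hδ : δ ^ 2 = algebraMap ℚ Om c) (hθ : θ ^ 2 = algebraMap ℚ Om x + algebraMap ℚ Om y * δ) :
    θ ∈ M := by
  by_cases h : IsSquare (x ^ 2 - c * y ^ 2)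
  · obtain ⟨e, he⟩ := h
    exact mem_of_norm_square hM hδ hθ he
  · have hpos : 0 < x ^ 2 - c * y ^ 2 := by
      rcases lt_or_ge 0 (x ^ 2 - c * y ^ 2) with h1 | h1
      · exact h1
      · exfalso
        apply h
        have h2 : 0 ≤ x ^ 2 - c * y ^ 2 := by nlinarith [sq_nonneg x, sq_nonneg y]
        have h3 : x ^ 2 - c * y ^ 2 = 0 := le_antisymm h1 h2
        rw [h3]; exact ⟨0, by ring⟩
    exact mem_of_dihedral hM hδ hθ (not_isSquare_of_neg hc) h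
      (not_isSquare_of_neg (mul_neg_of_neg_of_pos hc hpos))

theorem mem_of_pos (hM : ContainsD4 M) {c x y : ℚ} {δ θ : Om} (hc : 0 < c) (hc2 : ¬ IsSquare c)
    (hδ : δ ^ 2 = algebraMap ℚ Om c) (hθ : θ ^ 2 = algebraMap ℚ Om x + algebraMap ℚ Om y * δ)
    (hn : x ^ 2 - c * y ^ 2 < 0) : θ ∈ M :=
  mem_of_dihedral hM hδ hθ hc2 (not_isSquare_of_neg hn)
    (not_isSquare_of_neg (mul_neg_of_pos_of_neg hc hn))

/-- **The radical formula.** -/
theorem mem_explicit (hM : ContainsD4 M) {q₀ q₁ q₂ q₃ α β : Om} {n a b p₁ p₂ p₃ r₂ c₂ : ℚ}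
    (hn : n ≠ 0) (ha : ¬ IsSquare a) (hb : ¬ IsSquare b)
    (hα : α ^ 2 = algebraMap ℚ Om a) (hβ : β ^ 2 = algebraMap ℚ Om b)
    (hN : q₀ ^ 2 + q₁ ^ 2 + q₂ ^ 2 + q₃ ^ 2 = algebraMap ℚ Om n)
    (h1 : 2 * α * (q₀ * q₃ + q₁ * q₂) = algebraMap ℚ Om n * algebraMap ℚ Om p₁)
    (h2 : α * (q₀ ^ 2 - q₁ ^ 2 + q₂ ^ 2 - q₃ ^ 2) = algebraMap ℚ Om n * algebraMap ℚ Om p₂)
    (h3 : 2 * α * (q₂ * q₃ - q₀ * q₁) = algebraMap ℚ Om n * algebraMap ℚ Om p₃)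
    (hr : 2 * β * (q₁ * q₂ - q₀ * q₃) = algebraMap ℚ Om n * algebraMap ℚ Om r₂)
    (hc : -2 * α * β * (q₀ * q₁ + q₂ * q₃) = algebraMap ℚ Om n * algebraMap ℚ Om c₂) :
    q₀ ∈ M := by
  have hinj : Function.Injective (algebraMap ℚ Om) := (algebraMap ℚ Om).injective
  set N := algebraMap ℚ Om n with hNdef
  have hN0 : N ≠ 0 := by rw [hNdef, Ne, map_eq_zero]; exact hn
  set P₁ := algebraMap ℚ Om p₁ with hP₁
  set P₂ := algebraMap ℚ Om p₂ with hP₂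
  set P₃ := algebraMap ℚ Om p₃ with hP₃
  set R₂ := algebraMap ℚ Om r₂ with hR₂
  set C₂ := algebraMap ℚ Om c₂ with hC₂
  set A := algebraMap ℚ Om a with hA
  set B := algebraMap ℚ Om b with hB
  -- `a = p₁² + p₂² + p₃²`
  have ea : a = p₁ ^ 2 + p₂ ^ 2 + p₃ ^ 2 := by
    apply hinj
    simp only [map_add, map_pow]
    have : N ^ 2 * (P₁ ^ 2 + P₂ ^ 2 + P₃ ^ 2) = N ^ 2 * A := by
      have e1 : N ^ 2 * (P₁ ^ 2 + P₂ ^ 2 + P₃ ^ 2) =
          (N * P₁) ^ 2 + (N * P₂) ^ 2 + (N * P₃) ^ 2 := by ring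
      rw [e1, ← h1, ← h2, ← h3, ← hα, ← hN]
      ring
    exact (mul_left_cancel₀ (pow_ne_zero 2 hN0) this).symm
  -- `b e = c₂² + a r₂²`
  have eb : b * (p₁ ^ 2 + p₃ ^ 2) = c₂ ^ 2 + a * r₂ ^ 2 := by
    apply hinj
    simp only [map_add, map_pow, map_mul]
    have : N ^ 2 * (B * (P₁ ^ 2 + P₃ ^ 2)) = N ^ 2 * (C₂ ^ 2 + A * R₂ ^ 2) := by
      have e1 : N ^ 2 * (B * (P₁ ^ 2 + P₃ ^ 2)) = B * ((N * P₁) ^ 2 + (N * P₃) ^ 2) := by ring
      have e2 : N ^ 2 * (C₂ ^ 2 + A * R₂ ^ 2) = (N * C₂) ^ 2 + A * (N * R₂) ^ 2 := by ring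
      rw [e1, e2, ← h1, ← h3, ← hr, ← hc, ← hα, ← hβ]
      ring
    exact mul_left_cancel₀ (pow_ne_zero 2 hN0) this
  have ha0 : 0 < a := by
    rcases lt_or_ge 0 a with h | h
    · exact h
    · exfalso; apply ha
      have : a = 0 := le_antisymm h (by rw [ea]; positivity)
      rw [this]; exact ⟨0, by ring⟩
  have he0 : 0 < p₁ ^ 2 + p₃ ^ 2 := by
    rcases lt_or_ge 0 (p₁ ^ 2 + p₃ ^ 2) with h | h
    · exact h
    · exfalso; apply ha
      have : p₁ ^ 2 + p₃ ^ 2 = 0 := le_antisymm h (by positivity)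
      exact ⟨p₂, by rw [ea]; linarith⟩
  have hb0 : 0 < b := by
    rcases lt_or_ge 0 b with h | h
    · exact h
    · exfalso; apply hb
      have h5 : 0 ≤ b * (p₁ ^ 2 + p₃ ^ 2) := by rw [eb]; positivity
      have : b = 0 := le_antisymm h (nonneg_of_mul_nonneg_left h5 he0)
      rw [this]; exact ⟨0, by ring⟩
  obtain ⟨ι, hι⟩ := IsAlgClosed.exists_pow_nat_eq (algebraMap ℚ Om (-1)) (n := 2) (by norm_num)
  have hι' : ι ^ 2 = -1 := by rw [hι]; simp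
  obtain ⟨θ₁, hθ₁⟩ := IsAlgClosed.exists_pow_nat_eq α (n := 2) (by norm_num)
  obtain ⟨θ₂, hθ₂⟩ := IsAlgClosed.exists_pow_nat_eq β (n := 2) (by norm_num)
  obtain ⟨θ₃, hθ₃⟩ := IsAlgClosed.exists_pow_nat_eq (C₂ + R₂ * (ι * α)) (n := 2) (by norm_num)
  obtain ⟨θ₄, hθ₄⟩ := IsAlgClosed.exists_pow_nat_eq (P₂ + 1 * α) (n := 2) (by norm_num)
  obtain ⟨θ₅, hθ₅⟩ := IsAlgClosed.exists_pow_nat_eq (P₃ + P₁ * ι) (n := 2) (by norm_num)
  obtain ⟨η, hη⟩ := IsAlgClosed.exists_pow_nat_eq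
    (algebraMap ℚ Om (2 * (p₁ ^ 2 + p₃ ^ 2))) (n := 2) (by norm_num)
  obtain ⟨ζ, hζ⟩ := IsAlgClosed.exists_pow_nat_eq N (n := 2) (by norm_num)
  have m1 : θ₁ ∈ M := by
    refine mem_of_pos hM (c := a) (x := 0) (y := 1) (δ := α) ha0 ha hα ?_ ?_
    · rw [hθ₁, map_zero, map_one]; ring
    · nlinarith
  have m2 : θ₂ ∈ M := by
    refine mem_of_pos hM (c := b) (x := 0) (y := 1) (δ := β) hb0 hb hβ ?_ ?_
    · rw [hθ₂, map_zero, map_one]; ring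
    · nlinarith
  have m3 : θ₃ ∈ M := by
    refine mem_of_neg hM (c := -a) (x := c₂) (y := r₂) (δ := ι * α) (by linarith) ?_ hθ₃
    rw [mul_pow, hι', hα, map_neg]; ring
  have m4 : θ₄ ∈ M := by
    refine mem_of_pos hM (c := a) (x := p₂) (y := 1) (δ := α) ha0 ha hα ?_ ?_
    · rw [hθ₄, map_one]
    · nlinarith
  have m5 : θ₅ ∈ M :=
    mem_of_neg hM (c := -1) (x := p₃) (y := p₁) (δ := ι) (by norm_num) hι hθ₅
  have m6 : η ∈ M := sqrt_mem hM hη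
  have m7 : ζ ∈ M := sqrt_mem hM hζ
  have mι : ι ∈ M := sqrt_mem hM hι
  have mα : α ∈ M := sqrt_mem hM hα
  have hα0 : α ≠ 0 := by
    intro h
    rw [h, zero_pow (by norm_num)] at hα
    have := (map_eq_zero _).1 hα.symm
    linarith
  have hβ0 : β ≠ 0 := by
    intro h
    rw [h, zero_pow (by norm_num)] at hβ
    have := (map_eq_zero _).1 hβ.symm
    linarith
  have hη0 : η ≠ 0 := by
    intro h
    rw [h, zero_pow (by norm_num)] at hη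
    have := (map_eq_zero _).1 hη.symm
    linarith
  have hθ₁0 : θ₁ ≠ 0 := by
    intro h; rw [h, zero_pow (by norm_num)] at hθ₁; exact hα0 hθ₁.symm
  have hθ₂0 : θ₂ ≠ 0 := by
    intro h; rw [h, zero_pow (by norm_num)] at hθ₂; exact hβ0 hθ₂.symm
  -- the main identity
  have hη' : η ^ 2 = 2 * (P₁ ^ 2 + P₃ ^ 2) := by
    rw [hη, hP₁, hP₃]; simp only [map_mul, map_add, map_pow, map_ofNat]
  have main : ((q₀ - ι * q₂) * (θ₁ * θ₂ * η)) ^ 2 = (ζ * θ₄ * θ₅ * θ₃) ^ 2 := by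
    have e1 : ((q₀ - ι * q₂) * (θ₁ * θ₂ * η)) ^ 2 =
        (q₀ - ι * q₂) ^ 2 * (α * β * (2 * (P₁ ^ 2 + P₃ ^ 2))) := by
      rw [← hη', ← hθ₁, ← hθ₂]; ring
    have e2 : (ζ * θ₄ * θ₅ * θ₃) ^ 2 =
        N * (P₂ + 1 * α) * (P₃ + P₁ * ι) * (C₂ + R₂ * (ι * α)) := by
      rw [← hζ, ← hθ₄, ← hθ₅, ← hθ₃]; ring
    rw [e1, e2]
    apply mul_left_cancel₀ (pow_ne_zero 2 hN0)
    have e3 : N ^ 2 * ((q₀ - ι * q₂) ^ 2 * (α * β * (2 * (P₁ ^ 2 + P₃ ^ 2)))) =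
        (q₀ - ι * q₂) ^ 2 * (α * β * (2 * ((N * P₁) ^ 2 + (N * P₃) ^ 2))) := by ring
    have e4 : N ^ 2 * (N * (P₂ + 1 * α) * (P₃ + P₁ * ι) * (C₂ + R₂ * (ι * α))) =
        (N * P₂ + N * α) * (N * P₃ + N * P₁ * ι) * (N * C₂ + N * R₂ * (ι * α)) := by ring
    rw [e3, e4, ← h1, ← h2, ← h3, ← hr, ← hc, ← hN]
    linear_combination (8 * α ^ 3 * β * (q₀ ^ 2 + q₂ ^ 2) ^ 2 * q₃ ^ 2) * hι'
  have mu : q₀ - ι * q₂ ∈ M := by
    have hprod0 : θ₁ * θ₂ * η ≠ 0 := mul_ne_zero (mul_ne_zero hθ₁0 hθ₂0) hη0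
    have hmem : θ₁ * θ₂ * η ∈ M := mul_mem (mul_mem m1 m2) m6
    have hmem2 : ζ * θ₄ * θ₅ * θ₃ ∈ M := mul_mem (mul_mem (mul_mem m7 m4) m5) m3
    have e : (q₀ - ι * q₂) = ((q₀ - ι * q₂) * (θ₁ * θ₂ * η)) / (θ₁ * θ₂ * η) := by
      field_simp
    rw [e]
    apply div_mem _ hmem
    rcases sq_eq_sq_iff_eq_or_eq_neg.1 main with h | h
    · rw [h]; exact hmem2
    · rw [h]; exact neg_mem hmem2
  -- the product of the two conjugate elements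
  have hmul : 2 * ((q₀ - ι * q₂) * (q₀ + ι * q₂)) * α = N * (α + P₂) := by
    have e : 2 * ((q₀ - ι * q₂) * (q₀ + ι * q₂)) * α =
        α * (q₀ ^ 2 - q₁ ^ 2 + q₂ ^ 2 - q₃ ^ 2) +
          α * (q₀ ^ 2 + q₁ ^ 2 + q₂ ^ 2 + q₃ ^ 2) - 2 * α * q₂ ^ 2 * (ι ^ 2 + 1) := by ring
    rw [e, h2, hN, hι']; ring
  have mN : N ∈ M := M.algebraMap_mem n
  have mP₂ : P₂ ∈ M := M.algebraMap_mem p₂
  have hu0 : q₀ - ι * q₂ ≠ 0 := by
    intro h
    rw [h, zero_mul, mul_zero, zero_mul] at hmul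
    have h5 : α + P₂ = 0 := (mul_eq_zero.1 hmul.symm).resolve_left hN0
    apply ha
    refine ⟨p₂, ?_⟩
    apply hinj
    rw [map_mul, ← hA, ← hP₂, ← hα]
    have h6 : α = -P₂ := by linear_combination h5
    rw [h6]; ring
  have mv : q₀ + ι * q₂ ∈ M := by
    have e : q₀ + ι * q₂ = N * (α + P₂) / (2 * (q₀ - ι * q₂) * α) := by
      rw [← hmul]; field_simp
    rw [e]
    refine div_mem (mul_mem mN (add_mem mα mP₂)) (mul_mem (mul_mem ?_ mu) mα)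
    exact ofNat_mem M 2
  have e : q₀ = ((q₀ - ι * q₂) + (q₀ + ι * q₂)) / 2 := by ring
  rw [e]
  exact div_mem (add_mem mu mv) (ofNat_mem M 2)

end Pool.Agent.R371.QD
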