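import Mathlib
import Pool.Agent.R371.QD.Expl

/-!
# Quaternion octic extensions lie in the compositum of the dihedral octic extensions
-/

set_option autoImplicit false

namespace Pool.Agent.R371.QD

open IntermediateField

section
variable {K : IntermediateField ℚ Om}

/-- there is an element fixed by `g` and not fixed by `f`, if `f` and `g` do not commute -/
theorem exists_fixed_not_fixed [IsGalois ℚ K] [Finite (K ≃ₐ[ℚ] K)] (f g : K ≃ₐ[ℚ] K)
    (hfg : f * g ≠ g * f) : ∃ x : K, g x = x ∧ f x ≠ x := by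
  by_contra hcon
  push Not at hcon
  apply hfg
  let H : ClosedSubgroup (K ≃ₐ[ℚ] K) :=
    { Subgroup.zpowers g with isClosed' := (Set.toFinite _).isClosed }
  have h1 := InfiniteGalois.fixingSubgroup_fixedField H
  have h2 : f ∈ (IntermediateField.fixedField (Subgroup.zpowers g)).fixingSubgroup := by
    rw [IntermediateField.mem_fixingSubgroup_iff]
    intro x hx
    apply hcon
    exact hx ⟨g, Subgroup.mem_zpowers g⟩
  have h3 : f ∈ Subgroup.zpowers g := by
    have : f ∈ H.1 := by rw [← h1]; exact h2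
    exact this
  obtain ⟨n, hn⟩ := Subgroup.mem_zpowers_iff.1 h3
  rw [← hn]
  exact (Commute.zpow_self g n).eq

/-- the abstract situation: automorphisms `i`, `j` generating a quaternion group -/
structure QData (K : IntermediateField ℚ Om) where
  i : K ≃ₐ[ℚ] K
  j : K ≃ₐ[ℚ] K
  hii : i * i = j * j
  hji : j * i = (i * i) * (i * j)
  hzz : (i * i) * (i * i) = 1
  hz1 : i * i ≠ 1
  hgen : ∀ g : K ≃ₐ[ℚ] K, ∃ m : ℕ, g = i ^ m ∨ g = j * i ^ m

variable (D : QData K)

theorem QData.jj (x : K) : D.j (D.j x) = D.i (D.i x) := by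
  have := DFunLike.congr_fun D.hii x
  rw [AlgEquiv.mul_apply, AlgEquiv.mul_apply] at this
  exact this.symm

theorem QData.ji (x : K) : D.j (D.i x) = D.i (D.i (D.i (D.j x))) := by
  have := DFunLike.congr_fun D.hji x
  simp only [AlgEquiv.mul_apply] at this
  exact this

theorem QData.iiii (x : K) : D.i (D.i (D.i (D.i x))) = x := by
  have := DFunLike.congr_fun D.hzz x
  simp only [AlgEquiv.mul_apply, AlgEquiv.one_apply] at this
  exact this

/-- elements fixed by `i` and `j` are rational -/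
theorem QData.rational [IsGalois ℚ K] {x : K} (hi : D.i x = x) (hj : D.j x = x) :
    ∃ r : ℚ, x = algebraMap ℚ K r := by
  have hpow : ∀ m : ℕ, (D.i ^ m) x = x := by
    intro m
    induction m with
    | zero => rfl
    | succ m ih => rw [pow_succ, AlgEquiv.mul_apply, hi, ih]
  have h : ∀ g : K ≃ₐ[ℚ] K, g x = x := by
    intro g
    obtain ⟨m, hm | hm⟩ := D.hgen g
    · rw [hm, hpow]
    · rw [hm, AlgEquiv.mul_apply, hpow, hj]
  obtain ⟨r, hr⟩ := (InfiniteGalois.mem_range_algebraMap_iff_fixed x).2 h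
  exact ⟨r, hr.symm⟩

theorem QData.not_comm : D.i * D.j ≠ D.j * D.i := by
  intro h
  apply D.hz1
  have h1 := D.hji
  rw [← h] at h1
  exact right_eq_mul.1 h1

theorem ne_neg_self {x : K} (hx : x ≠ 0) : x ≠ -x := by
  intro h
  have h2 : (2 : K) * x = 0 := by linear_combination h
  rcases mul_eq_zero.1 h2 with h3 | h3
  · exact two_ne_zero h3
  · exact hx h3

/-- the square root `√a` -/
theorem QData.exists_alpha [IsGalois ℚ K] [Finite (K ≃ₐ[ℚ] K)] :
    ∃ α : K, α ≠ 0 ∧ D.i α = -α ∧ D.j α = α := by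
  obtain ⟨x, hx1, hx2⟩ := exists_fixed_not_fixed D.i D.j D.not_comm
  have hii : D.i (D.i x) = x := by rw [← D.jj, hx1, hx1]
  refine ⟨x - D.i x, ?_, ?_, ?_⟩
  · rw [sub_ne_zero]; exact fun h => hx2 h.symm
  · rw [map_sub, hii]; ring
  · rw [map_sub, hx1, D.ji, hx1, hii]

theorem QData.exists_beta [IsGalois ℚ K] [Finite (K ≃ₐ[ℚ] K)] :
    ∃ β : K, β ≠ 0 ∧ D.i β = β ∧ D.j β = -β := by
  obtain ⟨x, hx1, hx2⟩ := exists_fixed_not_fixed D.j D.i D.not_comm.symm
  have hjj : D.j (D.j x) = x := by rw [D.jj, hx1, hx1]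
  have hiij : D.i (D.i (D.j x)) = D.j x := by
    rw [← D.jj, hjj]
  refine ⟨x - D.j x, ?_, ?_, ?_⟩
  · rw [sub_ne_zero]; exact fun h => hx2 h.symm
  · have h1 : D.j x = D.i (D.i (D.i (D.j x))) := by
      conv_lhs => rw [← hx1]
      rw [D.ji]
    have h2 : D.i (D.j x) = D.j x := by
      rw [hiij] at h1
      exact h1.symm
    rw [map_sub, hx1, h2]
  · rw [map_sub, hjj]; ring

/-- the norm `y² + (iy)² + (jy)² + (ijy)²` -/
noncomputable def QData.nf (y : K) : K := y ^ 2 + (D.i y) ^ 2 + (D.j y) ^ 2 + (D.i (D.j y)) ^ 2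

theorem QData.exists_y : ∃ y : K, D.i (D.i y) = -y ∧ D.nf y ≠ 0 := by
  have h1 : ∃ x : K, D.i (D.i x) ≠ x := by
    by_contra hcon
    push Not at hcon
    apply D.hz1
    ext x
    rw [AlgEquiv.mul_apply, hcon, AlgEquiv.one_apply]
  obtain ⟨x, hx⟩ := h1
  have hy0 : x - D.i (D.i x) ≠ 0 := by rw [sub_ne_zero]; exact fun h => hx h.symm
  have hzy : D.i (D.i (x - D.i (D.i x))) = -(x - D.i (D.i x)) := by
    rw [map_sub, map_sub, D.iiii]; ring
  set y := x - D.i (D.i x) with hy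
  by_cases n1 : D.nf y = 0
  · by_cases n2 : D.nf y⁻¹ = 0
    · refine ⟨y + y⁻¹, ?_, ?_⟩
      · rw [map_add, map_add, map_inv₀, map_inv₀, hzy, inv_neg]; ring
      · intro n3
        unfold QData.nf at n1 n2 n3
        simp only [map_add, map_inv₀] at n2 n3
        have hi0 : D.i y ≠ 0 := by rw [Ne, map_eq_zero]; exact hy0
        have hj0 : D.j y ≠ 0 := by rw [Ne, map_eq_zero]; exact hy0
        have hk0 : D.i (D.j y) ≠ 0 := by rw [Ne, map_eq_zero]; exact hj0
        have m1 : y * y⁻¹ = 1 := mul_inv_cancel₀ hy0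
        have m2 : D.i y * (D.i y)⁻¹ = 1 := mul_inv_cancel₀ hi0
        have m3 : D.j y * (D.j y)⁻¹ = 1 := mul_inv_cancel₀ hj0
        have m4 : D.i (D.j y) * (D.i (D.j y))⁻¹ = 1 := mul_inv_cancel₀ hk0
        have h8 : (8 : K) = 0 := by
          linear_combination n3 - n1 - n2 - 2 * m1 - 2 * m2 - 2 * m3 - 2 * m4
        have : (8 : K) ≠ 0 := by norm_num
        exact this h8
    · refine ⟨y⁻¹, ?_, n2⟩
      rw [map_inv₀, map_inv₀, hzy, inv_neg]
  · exact ⟨y, hzy, n1⟩

include D in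
/-- **All of `K` lies in `M`.** -/
theorem QData.le [IsGalois ℚ K] [Finite (K ≃ₐ[ℚ] K)] {M : IntermediateField ℚ Om}
    (hM : ContainsD4 M) : K ≤ M := by
  obtain ⟨α, hα0, hiα, hjα⟩ := D.exists_alpha
  obtain ⟨β, hβ0, hiβ, hjβ⟩ := D.exists_beta
  obtain ⟨y, hzy, hN0⟩ := D.exists_y
  -- the four conjugates
  set q₀ := y with hq0
  set q₁ := D.i y with hq1
  set q₂ := D.j y with hq2
  set q₃ := D.i (D.j y) with hq3
  have i0 : D.i q₀ = q₁ := rfl
  have i1 : D.i q₁ = -q₀ := hzy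
  have i2 : D.i q₂ = q₃ := rfl
  have i3 : D.i q₃ = -q₂ := by
    have e1 : D.i (D.i (D.j y)) = D.j (D.j (D.j y)) := (D.jj _).symm
    have e2 : D.j (D.j y) = -y := by rw [D.jj]; exact hzy
    change D.i (D.i (D.j y)) = -D.j y
    rw [e1, e2, map_neg]
  have j0 : D.j q₀ = q₂ := rfl
  have j1 : D.j q₁ = -q₃ := by
    rw [hq1, D.ji, ← hq2, i2, i3, map_neg, i2]
  have j2 : D.j q₂ = -q₀ := by
    rw [hq2, D.jj, hzy]
  have j3 : D.j q₃ = q₁ := by
    rw [hq3, D.ji, ← hq2, j2, map_neg, map_neg, map_neg, i0, i1, map_neg, neg_neg, i0]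
  obtain ⟨n, hn⟩ := D.rational (x := q₀ ^ 2 + q₁ ^ 2 + q₂ ^ 2 + q₃ ^ 2)
    (by simp only [map_add, map_pow, i0, i1, i2, i3]; ring)
    (by simp only [map_add, map_pow, j0, j1, j2, j3]; ring)
  have hn0 : n ≠ 0 := by
    rintro rfl
    apply hN0
    unfold QData.nf
    rw [← hq1, ← hq2, ← hq3, hn, map_zero]
  have hnK : algebraMap ℚ K n ≠ 0 := by rw [Ne, map_eq_zero]; exact hn0
  obtain ⟨a, ha⟩ := D.rational (x := α ^ 2)
    (by simp only [map_pow, hiα]; ring) (by simp only [map_pow, hjα])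
  obtain ⟨b, hb⟩ := D.rational (x := β ^ 2)
    (by simp only [map_pow, hiβ]) (by simp only [map_pow, hjβ]; ring)
  have hasq : ¬ IsSquare a := by
    rintro ⟨s, hs⟩
    have h1 : α ^ 2 = (algebraMap ℚ K s) ^ 2 := by rw [ha, hs, map_mul, sq]
    have h2 : D.i α = α := by
      rcases sq_eq_sq_iff_eq_or_eq_neg.1 h1 with h | h
      · rw [h, AlgEquiv.commutes]
      · rw [h, map_neg, AlgEquiv.commutes]
    rw [hiα] at h2
    exact ne_neg_self hα0 h2.symm
  have hbsq : ¬ IsSquare b := by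
    rintro ⟨s, hs⟩
    have h1 : β ^ 2 = (algebraMap ℚ K s) ^ 2 := by rw [hb, hs, map_mul, sq]
    have h2 : D.j β = β := by
      rcases sq_eq_sq_iff_eq_or_eq_neg.1 h1 with h | h
      · rw [h, AlgEquiv.commutes]
      · rw [h, map_neg, AlgEquiv.commutes]
    rw [hjβ] at h2
    exact ne_neg_self hβ0 h2.symm
  -- division by `n`
  have hdiv : ∀ X : K, (∃ r : ℚ, X = algebraMap ℚ K r) →
      ∃ p : ℚ, X = algebraMap ℚ K n * algebraMap ℚ K p := by
    rintro X ⟨r, hr⟩
    refine ⟨r / n, ?_⟩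
    rw [hr, ← map_mul]
    congr 1
    field_simp
  obtain ⟨p₁, hp1⟩ := hdiv _ (D.rational (x := 2 * α * (q₀ * q₃ + q₁ * q₂))
    (by simp only [map_add, map_mul, map_ofNat, hiα, i0, i1, i2, i3]; ring)
    (by simp only [map_add, map_mul, map_ofNat, hjα, j0, j1, j2, j3]; ring))
  obtain ⟨p₂, hp2⟩ := hdiv _ (D.rational (x := α * (q₀ ^ 2 - q₁ ^ 2 + q₂ ^ 2 - q₃ ^ 2))
    (by simp only [map_add, map_sub, map_pow, map_mul, hiα, i0, i1, i2, i3]; ring)
    (by simp only [map_add, map_sub, map_pow, map_mul, hjα, j0, j1, j2, j3]; ring))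
  obtain ⟨p₃, hp3⟩ := hdiv _ (D.rational (x := 2 * α * (q₂ * q₃ - q₀ * q₁))
    (by simp only [map_sub, map_mul, map_ofNat, hiα, i0, i1, i2, i3]; ring)
    (by simp only [map_sub, map_mul, map_ofNat, hjα, j0, j1, j2, j3]; ring))
  obtain ⟨r₂, hr2⟩ := hdiv _ (D.rational (x := 2 * β * (q₁ * q₂ - q₀ * q₃))
    (by simp only [map_sub, map_mul, map_ofNat, hiβ, i0, i1, i2, i3]; ring)
    (by simp only [map_sub, map_mul, map_ofNat, hjβ, j0, j1, j2, j3]; ring))
  obtain ⟨c₂, hc2⟩ := hdiv _ (D.rational (x := -2 * α * β * (q₀ * q₁ + q₂ * q₃))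
    (by simp only [map_add, map_neg, map_mul, map_ofNat, hiα, hiβ, i0, i1, i2, i3]; ring)
    (by simp only [map_add, map_neg, map_mul, map_ofNat, hjα, hjβ, j0, j1, j2, j3]; ring))
  -- transfer to `Om`
  have hcoe : ∀ r : ℚ, ((algebraMap ℚ K r : K) : Om) = algebraMap ℚ Om r := fun r => rfl
  have hyM : (q₀ : Om) ∈ M := by
    have T : ∀ {u v : K}, u = v → (u : Om) = (v : Om) := fun h => congrArg _ h
    refine mem_explicit hM (q₀ := (q₀ : Om)) (q₁ := (q₁ : Om)) (q₂ := (q₂ : Om)) (q₃ := (q₃ : Om))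
      (α := (α : Om)) (β := (β : Om)) (n := n) (a := a) (b := b) (p₁ := p₁) (p₂ := p₂) (p₃ := p₃)
      (r₂ := r₂) (c₂ := c₂) hn0 hasq hbsq ?_ ?_ ?_ ?_ ?_ ?_ ?_ ?_
    · exact T ha
    · exact T hb
    · exact T hn
    · exact T hp1
    · exact T hp2
    · exact T hp3
    · exact T hr2
    · exact T hc2
  have hαM : (α : Om) ∈ M := sqrt_mem hM (g := a) (congrArg (fun u : K => (u : Om)) ha)
  have hβM : (β : Om) ∈ M := sqrt_mem hM (g := b) (congrArg (fun u : K => (u : Om)) hb)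
  have hratM : ∀ X : K, (∃ r : ℚ, X = algebraMap ℚ K r) → (X : Om) ∈ M := by
    rintro X ⟨r, hr⟩
    rw [hr, hcoe]; exact M.algebraMap_mem r
  -- elements fixed by `z`
  have hzM : ∀ s : K, D.i (D.i s) = s → (s : Om) ∈ M := by
    intro s hs
    have k1 : D.j (D.j s) = s := by rw [D.jj, hs]
    have k2 : D.i (D.i (D.j s)) = D.j s := by rw [← D.jj, k1]
    have k3 : D.j (D.i s) = D.i (D.j s) := by rw [D.ji, k2]
    have k4 : D.j (D.i (D.j s)) = D.i s := by
      rw [D.ji, k1, hs]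
    have t1 : ((s + D.i s + D.j s + D.i (D.j s) : K) : Om) ∈ M := hratM _ (D.rational
      (by simp only [map_add, hs, k2]; ring) (by simp only [map_add, k1, k3, k4]; ring))
    have t2 : (((s - D.i s + D.j s - D.i (D.j s)) * α : K) : Om) ∈ M := hratM _ (D.rational
      (by simp only [map_add, map_sub, map_mul, hs, k2, hiα]; ring)
      (by simp only [map_add, map_sub, map_mul, k1, k3, k4, hjα]; ring))
    have t3 : (((s + D.i s - D.j s - D.i (D.j s)) * β : K) : Om) ∈ M := hratM _ (D.rational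
      (by simp only [map_add, map_sub, map_mul, hs, k2, hiβ]; ring)
      (by simp only [map_add, map_sub, map_mul, k1, k3, k4, hjβ]; ring))
    have t4 : (((s - D.i s - D.j s + D.i (D.j s)) * (α * β) : K) : Om) ∈ M := hratM _ (D.rational
      (by simp only [map_add, map_sub, map_mul, hs, k2, hiα, hiβ]; ring)
      (by simp only [map_add, map_sub, map_mul, k1, k3, k4, hjα, hjβ]; ring))
    have e : s = ((s + D.i s + D.j s + D.i (D.j s)) +
        (s - D.i s + D.j s - D.i (D.j s)) * α / α +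
        (s + D.i s - D.j s - D.i (D.j s)) * β / β +
        (s - D.i s - D.j s + D.i (D.j s)) * (α * β) / (α * β)) / 4 := by
      rw [mul_div_cancel_right₀ _ hα0, mul_div_cancel_right₀ _ hβ0,
        mul_div_cancel_right₀ _ (mul_ne_zero hα0 hβ0)]
      ring
    have e' := congrArg (fun u : K => (u : Om)) e
    have e'' : (s : Om) = (((s + D.i s + D.j s + D.i (D.j s) : K) : Om) +
        (((s - D.i s + D.j s - D.i (D.j s)) * α : K) : Om) / (α : Om) +
        (((s + D.i s - D.j s - D.i (D.j s)) * β : K) : Om) / (β : Om) +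
        (((s - D.i s - D.j s + D.i (D.j s)) * (α * β) : K) : Om) / ((α : Om) * (β : Om))) / 4 := e'
    rw [e'']
    exact div_mem (add_mem (add_mem (add_mem t1 (div_mem t2 hαM)) (div_mem t3 hβM))
      (div_mem t4 (mul_mem hαM hβM))) (ofNat_mem M 4)
  intro x hx
  have hy0 : y ≠ 0 := by
    intro h
    apply hN0
    have h' : q₀ = 0 := h
    unfold QData.nf
    rw [h']; simp
  let X : K := ⟨x, hx⟩
  have h1 : ((X + D.i (D.i X) : K) : Om) ∈ M := hzM _ (by
    rw [map_add, map_add, D.iiii]; ring)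
  have h2 : (((X - D.i (D.i X)) / y : K) : Om) ∈ M := hzM _ (by
    rw [map_div₀, map_div₀, map_sub, map_sub, D.iiii, hzy, div_neg, neg_div']
    congr 1; ring)
  have e : X = ((X + D.i (D.i X)) + (X - D.i (D.i X)) / y * y) / 2 := by
    rw [div_mul_cancel₀ _ hy0]; ring
  have e' : (X : Om) = (((X + D.i (D.i X) : K) : Om) + (((X - D.i (D.i X)) / y : K) : Om) *
      (y : Om)) / 2 := congrArg (fun u : K => (u : Om)) e
  change (X : Om) ∈ M
  rw [e']
  exact div_mem (add_mem h1 (mul_mem h2 hyM)) (ofNat_mem M 2)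

/-- the quaternion group data attached to an isomorphism with `QuaternionGroup 2` -/
noncomputable def qdata (e : (K ≃ₐ[ℚ] K) ≃* QuaternionGroup 2) : QData K where
  i := e.symm (QuaternionGroup.a 1)
  j := e.symm (QuaternionGroup.xa 0)
  hii := by
    rw [← map_mul, ← map_mul]; congr 1
  hji := by
    rw [← map_mul, ← map_mul, ← map_mul, ← map_mul]; congr 1
  hzz := by
    rw [← map_mul, ← map_mul, ← map_one e.symm]; congr 1
  hz1 := by
    rw [← map_mul, ← map_one e.symm]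
    intro h
    have := e.symm.injective h
    revert this
    decide
  hgen := by
    intro g
    obtain ⟨u, hu⟩ : ∃ u, g = e.symm u := ⟨e g, (e.symm_apply_apply g).symm⟩
    have key : ∀ u : QuaternionGroup 2, ∃ m : ℕ, u = (QuaternionGroup.a 1) ^ m ∨
        u = QuaternionGroup.xa 0 * (QuaternionGroup.a 1) ^ m := by
      intro u
      match u with
      | QuaternionGroup.a k =>
        refine ⟨k.val, Or.inl ?_⟩
        rw [QuaternionGroup.a_one_pow, ZMod.natCast_zmod_val]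
      | QuaternionGroup.xa k =>
        refine ⟨k.val, Or.inr ?_⟩
        rw [QuaternionGroup.a_one_pow, ZMod.natCast_zmod_val, QuaternionGroup.xa_mul_a, zero_add]
    obtain ⟨m, hm | hm⟩ := key u
    · exact ⟨m, Or.inl (by rw [hu, hm, map_pow])⟩
    · exact ⟨m, Or.inr (by rw [hu, hm, map_mul, map_pow])⟩

theorem quaternion_le [IsGalois ℚ K] (e : (K ≃ₐ[ℚ] K) ≃* QuaternionGroup 2)
    {M : IntermediateField ℚ Om} (hM : ContainsD4 M) : K ≤ M := by
  have : Finite (K ≃ₐ[ℚ] K) := Finite.of_equiv _ e.symm.toEquiv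
  exact (qdata e).le hM

end

end Pool.Agent.R371.QD
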